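import Mathlib

/-!
# MP_543a09_nt: almost all points are visible along a polynomial with two distinct roots

Proof.  If `(a,h)` is invisible along `F` and `a` is large, then `d F(u) = c F(a)` for some `u < a`
and integers `0 < c < d` with `d ∣ h` and `d ∣ F(a)`.  Few points have a common divisor
`d > K` of `h` and `F(a)`; and for fixed `c < d` the set of `a` for which `d F(u) = c F(a)` is
solvable with `u < a` has density zero, because solutions satisfy `u = α a + γ + o(1)`,
`α = (c/d)^{1/k}`: if `α` is irrational the gaps of this set tend to infinity, and if `α` is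
rational then `u = α a + γ` for all large solutions, so that there are only finitely many, unless
`F` has a single root.
-/

namespace Pool.Agent.Results.MP_543a09_nt.VisibleDensityOne

open Polynomial Filter Finset Topology

/-- `(a, h)` is visible along `F`: `h = t F(a)` for a rational `t` such that `a` is the least
positive integer `u` for which `t F(u)` is a positive integer. -/
def Visible (F : ℤ[X]) (a h : ℕ) : Prop :=
  ∃ t : ℚ, (h : ℚ) = t * ((F.eval (a : ℤ) : ℤ) : ℚ) ∧
    IsLeast {u : ℕ | 0 < u ∧ ∃ m : ℕ, 0 < m ∧ t * ((F.eval (u : ℤ) : ℤ) : ℚ) = (m : ℚ)} a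

open Classical in
/-- The number of points of `{1, …, N}²` visible along `F`. -/
noncomputable def visibleCount (F : ℤ[X]) (N : ℕ) : ℕ :=
  ((Icc 1 N ×ˢ Icc 1 N).filter (fun p => Visible F p.1 p.2)).card

/-! ### Real asymptotics -/

/-- coefficient `k-1` of a shifted polynomial -/
lemma taylor_coeff_pred (F : ℝ[X]) (k : ℕ) (hk : F.natDegree = k + 1) (s : ℝ) :
    (taylor s F).coeff k = F.coeff k + (k + 1) * F.coeff (k + 1) * s := by
  rw [taylor_coeff]
  have hdeg : (hasseDeriv k F).natDegree ≤ 1 := by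
    have := natDegree_hasseDeriv_le F k
    omega
  rw [Polynomial.eq_X_add_C_of_natDegree_le_one hdeg]
  simp only [eval_add, eval_mul, eval_C, eval_X, hasseDeriv_coeff]
  have h1 : ((1 + k).choose k : ℝ) = k + 1 := by
    rw [add_comm 1 k, Nat.choose_succ_self_right]; push_cast; ring
  rw [h1]
  simp only [zero_add, Nat.choose_self]
  push_cast
  rw [add_comm 1 k]
  ring

lemma comp_affine (F : ℝ[X]) (α s : ℝ) :
    F.comp (C α * X + C s) = (taylor s F).comp (C α * X) := by
  rw [taylor_apply, comp_assoc]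
  congr 1
  simp

/-- `d F(αx+s) - c F(x)` is eventually positive as soon as its coefficient of `x^{k-1}` is. -/
lemma eventually_pos (F : ℝ[X]) (k : ℕ) (hk : F.natDegree = k + 1) (hk1 : 1 ≤ k) (α s c d : ℝ)
    (hα : d * α ^ (k + 1) = c)
    (hT : 0 < d * ((F.coeff k + (k + 1) * F.coeff (k + 1) * s) * α ^ k) - c * F.coeff k) :
    ∀ᶠ x : ℝ in atTop, c * F.eval x < d * F.eval (α * x + s) := by
  set G : ℝ[X] := C d * F.comp (C α * X + C s) - C c * F with hG
  have hcoeff : ∀ n, G.coeff n = d * ((taylor s F).coeff n * α ^ n) - c * F.coeff n := by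
    intro n
    rw [hG, comp_affine, coeff_sub, coeff_C_mul, coeff_C_mul, comp_C_mul_X_coeff]
  have hk' : G.coeff k = d * ((F.coeff k + (k + 1) * F.coeff (k + 1) * s) * α ^ k)
      - c * F.coeff k := by
    rw [hcoeff, taylor_coeff_pred F k hk s]
  have hdegle : G.natDegree ≤ k := by
    rw [natDegree_le_iff_coeff_eq_zero]
    intro n hn
    rw [hcoeff]
    rcases Nat.lt_or_ge (k + 1) n with h | h
    · have h1 : (taylor s F).coeff n = 0 := by
        apply coeff_eq_zero_of_natDegree_lt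
        rw [natDegree_taylor, hk]; exact h
      have h2 : F.coeff n = 0 := by
        apply coeff_eq_zero_of_natDegree_lt
        rw [hk]; exact h
      rw [h1, h2]; ring
    · have hn' : n = k + 1 := by omega
      subst hn'
      have h1 : (taylor s F).coeff (k + 1) = F.coeff (k + 1) := by
        have := taylor_coeff s F (k + 1)
        rw [this]
        have hdeg : (hasseDeriv (k + 1) F).natDegree ≤ 0 := by
          have := natDegree_hasseDeriv_le F (k + 1)
          omega
        rw [eq_C_of_natDegree_le_zero hdeg, eval_C, hasseDeriv_coeff]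
        simp
      rw [h1, ← hα]; ring
  have hne : G.coeff k ≠ 0 := by rw [hk']; exact ne_of_gt hT
  have hdeg : G.natDegree = k := le_antisymm hdegle (le_natDegree_of_ne_zero hne)
  have hlead : G.leadingCoeff = G.coeff k := by rw [leadingCoeff, hdeg]
  have hpos : 0 < G.degree := by
    rw [← natDegree_pos_iff_degree_pos, hdeg]; omega
  have ht := Polynomial.tendsto_atTop_of_leadingCoeff_nonneg G hpos
    (by rw [hlead, hk']; exact hT.le)
  filter_upwards [ht.eventually_gt_atTop 0] with x hx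
  rw [hG] at hx
  simp only [eval_sub, eval_mul, eval_C, eval_comp, eval_add, eval_X] at hx
  linarith

/-- A real polynomial of positive degree with positive leading coefficient eventually exceeds all
its earlier values on `[0, ∞)`. -/
lemma exceeds (F : ℝ[X]) (hdeg : 2 ≤ F.natDegree) (hlead : 0 < F.leadingCoeff) :
    ∃ B : ℝ, 0 < B ∧ ∀ v, B ≤ v → ∀ u, 0 ≤ u → u < v → F.eval u < F.eval v := by
  have hd : F.derivative.natDegree = F.natDegree - 1 := natDegree_derivative F
  have hF : Tendsto (fun x => F.eval x) atTop atTop := by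
    apply Polynomial.tendsto_atTop_of_leadingCoeff_nonneg F _ hlead.le
    rw [← natDegree_pos_iff_degree_pos]; omega
  have hF' : Tendsto (fun x => F.derivative.eval x) atTop atTop := by
    apply Polynomial.tendsto_atTop_of_leadingCoeff_nonneg
    · rw [← natDegree_pos_iff_degree_pos]; omega
    · rw [leadingCoeff, hd, coeff_derivative]
      have h1 : F.natDegree - 1 + 1 = F.natDegree := by omega
      rw [h1, ← leadingCoeff]
      positivity
  obtain ⟨B0, hB0⟩ := eventually_atTop.1 (hF'.eventually_gt_atTop 0)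
  set B1 := max B0 1 with hB1
  have hmono : StrictMonoOn (fun x => F.eval x) (Set.Ici B1) := by
    apply strictMonoOn_of_deriv_pos (convex_Ici B1) F.continuous.continuousOn
    intro x hx
    rw [interior_Ici] at hx
    rw [Polynomial.deriv]
    exact hB0 x (le_trans (le_max_left _ _) (le_of_lt hx))
  obtain ⟨Cb, hCb⟩ := (isCompact_Icc (a := (0 : ℝ)) (b := B1)).exists_bound_of_continuousOn
    (f := fun x => F.eval x) F.continuous.continuousOn
  obtain ⟨B2, hB2⟩ := eventually_atTop.1 (hF.eventually_gt_atTop Cb)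
  refine ⟨max B1 B2, lt_of_lt_of_le one_pos (le_trans (le_max_right _ _) (le_max_left _ _)), ?_⟩
  intro v hv u hu huv
  have hv1 : B1 ≤ v := le_trans (le_max_left _ _) hv
  have hv2 : B2 ≤ v := le_trans (le_max_right _ _) hv
  rcases le_total B1 u with h | h
  · exact hmono h hv1 huv
  · have h1 := hCb u ⟨hu, h⟩
    have h2 := hB2 v hv2
    rw [Real.norm_eq_abs] at h1
    exact lt_of_le_of_lt (le_trans (le_abs_self _) h1) h2

/-- The location of the solutions of `d F(u) = c F(a)` with `u < a`. -/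
lemma location (F : ℝ[X]) (k : ℕ) (hk : F.natDegree = k + 1) (hk1 : 1 ≤ k)
    (hlead : 0 < F.leadingCoeff) (α c d : ℝ) (hα0 : 0 < α) (hd : 0 < d)
    (hα : d * α ^ (k + 1) = c) (δ : ℝ) (hδ : 0 < δ) :
    ∃ A : ℝ, ∀ a : ℝ, A ≤ a → ∀ u : ℝ, 0 ≤ u → d * F.eval u = c * F.eval a →
      |u - α * a - (-(1 - α) * F.coeff k / ((k + 1) * F.coeff (k + 1)))| < δ := by
  set γ : ℝ := -(1 - α) * F.coeff k / ((k + 1) * F.coeff (k + 1)) with hγ
  have hfk : 0 < F.coeff (k + 1) := by
    have := hlead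
    rwa [leadingCoeff, hk] at this
  have hk0 : (0 : ℝ) < (k : ℝ) + 1 := by positivity
  have hαk : 0 < α ^ k := pow_pos hα0 k
  have key : ∀ δ' : ℝ, d * ((F.coeff k + (k + 1) * F.coeff (k + 1) * (γ + δ')) * α ^ k)
      - c * F.coeff k = d * ((k + 1) * F.coeff (k + 1) * δ' * α ^ k) := by
    intro δ'
    have h1 : ((k : ℝ) + 1) * F.coeff (k + 1) * γ = -(1 - α) * F.coeff k := by
      rw [hγ]; field_simp
    rw [← hα, pow_succ]
    have : d * ((F.coeff k + (k + 1) * F.coeff (k + 1) * (γ + δ')) * α ^ k)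
      = d * ((F.coeff k + ((k + 1) * F.coeff (k + 1) * γ) + (k + 1) * F.coeff (k + 1) * δ')
        * α ^ k) := by ring
    rw [this, h1]; ring
  have hup := eventually_pos F k hk hk1 α (γ + δ) c d hα (by rw [key]; positivity)
  -- the lower bound, with `-F`
  have hdn : ∀ᶠ x : ℝ in atTop, d * F.eval (α * x + (γ - δ)) < c * F.eval x := by
    have h := eventually_pos (-F) k (by rw [natDegree_neg, hk]) hk1 α (γ - δ) c d hα (by
      have := key (-δ)
      simp only [coeff_neg]
      have h2 : d * ((-F.coeff k + (k + 1) * -F.coeff (k + 1) * (γ - δ)) * α ^ k)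
          - c * -F.coeff k = - (d * ((F.coeff k + (k + 1) * F.coeff (k + 1) * (γ + -δ)) * α ^ k)
            - c * F.coeff k) := by ring
      rw [h2, this]
      have : 0 < d * ((k + 1) * F.coeff (k + 1) * δ * α ^ k) := by positivity
      linarith)
    filter_upwards [h] with x hx
    simp only [eval_neg] at hx
    linarith
  obtain ⟨B, hB0, hB⟩ := exceeds F (by omega) hlead
  obtain ⟨A1, hA1⟩ := eventually_atTop.1 hup
  obtain ⟨A2, hA2⟩ := eventually_atTop.1 hdn
  refine ⟨max (max A1 A2) ((B + |γ| + δ) / α), fun a ha u hu huv => ?_⟩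
  have ha1 : A1 ≤ a := le_trans (le_trans (le_max_left _ _) (le_max_left _ _)) ha
  have ha2 : A2 ≤ a := le_trans (le_trans (le_max_right _ _) (le_max_left _ _)) ha
  have ha3 : B + |γ| + δ ≤ α * a := by
    have := le_trans (le_max_right _ _) ha
    rw [div_le_iff₀ hα0] at this
    linarith
  have hg1 := neg_abs_le γ
  have hg2 := le_abs_self γ
  have e1 := hA1 a ha1
  have e2 := hA2 a ha2
  rw [abs_lt]
  constructor
  · by_contra hcon
    push Not at hcon
    -- `u ≤ α a + γ - δ`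
    have h1 : u ≤ α * a + (γ - δ) := by linarith
    have h2 : F.eval u ≤ F.eval (α * a + (γ - δ)) := by
      rcases eq_or_lt_of_le h1 with h | h
      · rw [h]
      · exact (hB _ (by linarith) u hu h).le
    have : d * F.eval u ≤ d * F.eval (α * a + (γ - δ)) := mul_le_mul_of_nonneg_left h2 hd.le
    linarith
  · by_contra hcon
    push Not at hcon
    have h1 : α * a + (γ + δ) ≤ u := by linarith
    have h2 : F.eval (α * a + (γ + δ)) ≤ F.eval u := by
      rcases eq_or_lt_of_le h1 with h | h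
      · rw [h]
      · exact (hB _ (by linarith) _ (by linarith) h).le
    have : d * F.eval (α * a + (γ + δ)) ≤ d * F.eval u := mul_le_mul_of_nonneg_left h2 hd.le
    linarith


/-! ### The set of `a` for which `d F(u) = c F(a)` has a solution `u < a` -/

/-- The set of `a` such that `d F(u) = c F(a)` for some `u < a`. -/
def E (F : ℤ[X]) (c d : ℕ) : Set ℕ :=
  {a | ∃ u : ℕ, u < a ∧ (d : ℤ) * F.eval (u : ℤ) = (c : ℤ) * F.eval (a : ℤ)}

/-- Two distinct roots exclude an affine functional equation. -/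
lemma no_affine (F : ℤ[X]) (hF : F ≠ 0)
    (hroots : ∃ x y : ℂ, x ≠ y ∧ aeval x F = 0 ∧ aeval y F = 0) (α γ c d : ℝ) (hα0 : 0 < α)
    (hα1 : α < 1) (hd : d ≠ 0)
    (hG : C d * (F.map (Int.castRingHom ℝ)).comp (C α * X + C γ)
      - C c * F.map (Int.castRingHom ℝ) = 0) : False := by
  have hfun : ∀ z : ℂ, (d : ℂ) * aeval ((α : ℂ) * z + (γ : ℂ)) F = (c : ℂ) * aeval z F := by
    intro z
    have h := congrArg (fun P : ℝ[X] => aeval z P) hG
    simp only [map_sub, map_mul, aeval_C, aeval_comp, map_add, aeval_X, map_zero,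
      Complex.coe_algebraMap] at h
    have e : ∀ w : ℂ, aeval w (F.map (Int.castRingHom ℝ)) = aeval w F := by
      intro w
      have := Polynomial.aeval_map_algebraMap (R := ℤ) ℝ w F
      rwa [show algebraMap ℤ ℝ = Int.castRingHom ℝ from rfl] at this
    rw [e, e] at h
    linear_combination h
  obtain ⟨x, y, hxy, hx, hy⟩ := hroots
  have h1α : (1 - (α : ℂ)) ≠ 0 := by
    intro h
    have : (α : ℂ) = 1 := by linear_combination -h
    have : α = 1 := by exact_mod_cast this
    linarith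
  set z0 : ℂ := (γ : ℂ) / (1 - (α : ℂ)) with hz0
  have hz0' : (α : ℂ) * z0 + γ = z0 := by
    rw [hz0]; field_simp; ring
  have hroot : ∃ z : ℂ, z ≠ z0 ∧ aeval z F = 0 := by
    by_cases hh : x = z0
    · exact ⟨y, fun h => hxy (hh.trans h.symm), hy⟩
    · exact ⟨x, hh, hx⟩
  obtain ⟨z, hz, hz1⟩ := hroot
  have hall : ∀ n : ℕ, aeval (z0 + (α : ℂ) ^ n * (z - z0)) F = 0 := by
    intro n
    induction n with
    | zero => simpa using hz1
    | succ n ih =>
      have h := hfun (z0 + (α : ℂ) ^ n * (z - z0))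
      rw [ih, mul_zero] at h
      have e : (α : ℂ) * (z0 + (α : ℂ) ^ n * (z - z0)) + (γ : ℂ)
          = z0 + (α : ℂ) ^ (n + 1) * (z - z0) := by
        linear_combination hz0'
      rw [e] at h
      rcases mul_eq_zero.1 h with h | h
      · exact absurd (by exact_mod_cast h) hd
      · exact h
  have hinj : Function.Injective (fun n : ℕ => z0 + (α : ℂ) ^ n * (z - z0)) := by
    intro m n hmn
    have h1 : (α : ℂ) ^ m = (α : ℂ) ^ n := by
      have : (α : ℂ) ^ m * (z - z0) = (α : ℂ) ^ n * (z - z0) := by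
        simpa using hmn
      exact mul_right_cancel₀ (sub_ne_zero.2 hz) this
    have h2 : α ^ m = α ^ n := by exact_mod_cast h1
    exact (pow_right_strictAnti₀ hα0 hα1).injective h2
  have hinf : {w : ℂ | (F.map (Int.castRingHom ℂ)).IsRoot w}.Infinite := by
    apply Set.infinite_of_injective_forall_mem hinj
    intro n
    have h := hall n
    change eval _ _ = 0
    rw [← eval₂_eq_eval_map]
    exact h
  have := eq_zero_of_infinite_isRoot _ hinf
  exact hF ((Polynomial.map_eq_zero_iff (RingHom.injective_int _)).1 this)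

lemma gaps (F : ℤ[X]) (hdeg : 2 ≤ F.natDegree) (hlead : 0 < F.leadingCoeff)
    (hroots : ∃ x y : ℂ, x ≠ y ∧ aeval x F = 0 ∧ aeval y F = 0) (c d : ℕ) (hc : 0 < c)
    (hcd : c < d) (M : ℕ) :
    ∃ A : ℕ, ∀ a ∈ E F c d, ∀ a' ∈ E F c d, A ≤ a → a < a' → M ≤ a' - a := by
  obtain ⟨k, hk⟩ : ∃ k, F.natDegree = k + 1 := ⟨F.natDegree - 1, by omega⟩
  have hk1 : 1 ≤ k := by omega
  set P : ℝ[X] := F.map (Int.castRingHom ℝ) with hP
  have hinjR : Function.Injective (Int.castRingHom ℝ) := RingHom.injective_int _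
  have hPk : P.natDegree = k + 1 := by rw [hP, natDegree_map_eq_of_injective hinjR, hk]
  have hPlead : 0 < P.leadingCoeff := by
    rw [hP, leadingCoeff_map_of_injective hinjR]
    simpa using hlead
  have hcR : (0 : ℝ) < c := by exact_mod_cast hc
  have hdR : (0 : ℝ) < d := by exact_mod_cast (lt_trans hc hcd)
  have hcdR : (c : ℝ) < d := by exact_mod_cast hcd
  set α : ℝ := ((c : ℝ) / d) ^ ((1 : ℝ) / ((k + 1 : ℕ) : ℝ)) with hαdef
  have hq0 : (0 : ℝ) < (c : ℝ) / d := by positivity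
  have hα0 : 0 < α := Real.rpow_pos_of_pos hq0 _
  have hαpow : α ^ (k + 1) = (c : ℝ) / d := by
    rw [hαdef, ← Real.rpow_natCast, ← Real.rpow_mul hq0.le]
    rw [one_div, inv_mul_cancel₀ (by positivity), Real.rpow_one]
  have hα1 : α < 1 := by
    by_contra h
    push Not at h
    have h1 : (1 : ℝ) ≤ α ^ (k + 1) := one_le_pow₀ h
    rw [hαpow, one_le_div hdR] at h1
    linarith
  have hαc : (d : ℝ) * α ^ (k + 1) = c := by rw [hαpow]; field_simp
  set γ : ℝ := -(1 - α) * P.coeff k / ((k + 1) * P.coeff (k + 1)) with hγ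
  have hev : ∀ a : ℕ, P.eval (a : ℝ) = ((F.eval (a : ℤ) : ℤ) : ℝ) := by
    intro a
    have h := Polynomial.eval_intCast_map (Int.castRingHom ℝ) F (a : ℤ)
    simp only [Int.cast_natCast] at h
    exact h
  have hEeq : ∀ a u : ℕ, (d : ℤ) * F.eval (u : ℤ) = (c : ℤ) * F.eval (a : ℤ) →
      (d : ℝ) * P.eval (u : ℝ) = c * P.eval (a : ℝ) := by
    intro a u h
    rw [hev, hev]
    exact_mod_cast h
  have hloc := fun δ hδ => location P k hPk hk1 hPlead α c d hα0 hdR hαc δ hδ
  by_cases hrat : ∃ r : ℚ, (r : ℝ) = α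
  · -- rational `α`: finitely many elements
    obtain ⟨r, hr⟩ := hrat
    set f1 : ℤ := F.coeff (k + 1) with hf1
    set f0 : ℤ := F.coeff k with hf0
    have hf1pos : 0 < f1 := by
      have := hlead
      rwa [leadingCoeff, hk] at this
    have hP1 : P.coeff (k + 1) = (f1 : ℝ) := by rw [hP, coeff_map]; rfl
    have hP0 : P.coeff k = (f0 : ℝ) := by rw [hP, coeff_map]; rfl
    have hf1R : (0 : ℝ) < (f1 : ℝ) := by exact_mod_cast hf1pos
    have hden : (0 : ℝ) < (r.den : ℝ) := by exact_mod_cast r.den_pos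
    have hrα : α * r.den = r.num := by
      rw [← hr]
      exact_mod_cast Rat.mul_den_eq_num r
    set D : ℝ := r.den * ((k + 1) * f1) with hD
    have hDpos : 0 < D := by positivity
    obtain ⟨A, hA⟩ := hloc (1 / D) (by positivity)
    -- every large element of `E` gives a root
    set G : ℝ[X] := C (d : ℝ) * P.comp (C α * X + C γ) - C (c : ℝ) * P with hG
    have hGne : G ≠ 0 := by
      intro h0
      exact no_affine F (by intro h; rw [h] at hk; simp at hk) hroots α γ c d hα0 hα1 hdR.ne' h0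
    have hfin : {x : ℝ | G.IsRoot x}.Finite := by
      by_contra h
      exact hGne (eq_zero_of_infinite_isRoot G h)
    have hroot : ∀ a ∈ E F c d, A ≤ (a : ℝ) → G.IsRoot (a : ℝ) := by
      rintro a ⟨u, hua, hu⟩ haA
      have h1 := hA a haA u (Nat.cast_nonneg u) (hEeq a u hu)
      rw [← hγ] at h1
      have h2 : (D * ((u : ℝ) - α * a - γ)) =
          ((r.den * (k + 1) * f1 * u - r.num * (k + 1) * f1 * a + (r.den - r.num) * f0 : ℤ) : ℝ) := by
        have e1 : D * γ = -(r.den - r.num) * f0 := by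
          rw [hD, hγ, hP0, hP1]
          field_simp
          linear_combination (f0 : ℝ) * hrα
        have : D * ((u : ℝ) - α * a - γ) = D * u - (α * r.den) * ((k + 1) * f1) * a - D * γ := by
          rw [hD]; ring
        rw [this, e1, hrα, hD]
        push_cast
        ring
      have h3 : |D * ((u : ℝ) - α * a - γ)| < 1 := by
        rw [abs_mul, abs_of_pos hDpos]
        calc D * |(u : ℝ) - α * a - γ| < D * (1 / D) := mul_lt_mul_of_pos_left h1 hDpos
          _ = 1 := by field_simp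
      rw [h2] at h3
      have h4 : (r.den * (k + 1) * f1 * u - r.num * (k + 1) * f1 * a + (r.den - r.num) * f0 : ℤ)
          = 0 := by
        have h5 : |(r.den * (k + 1) * f1 * u - r.num * (k + 1) * f1 * a
            + (r.den - r.num) * f0 : ℤ)| < 1 := by exact_mod_cast h3
        exact Int.abs_lt_one_iff.1 h5
      rw [h4] at h2
      have h6 : (u : ℝ) - α * a - γ = 0 := by
        have : D * ((u : ℝ) - α * a - γ) = 0 := by rw [h2]; simp
        rcases mul_eq_zero.1 this with h | h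
        · exact absurd h hDpos.ne'
        · exact h
      change eval _ _ = 0
      rw [hG]
      simp only [eval_sub, eval_mul, eval_C, eval_comp, eval_add, eval_X]
      have h7 : α * (a : ℝ) + γ = u := by linarith
      rw [h7, hEeq a u hu]; ring
    -- choose `A'` beyond all the elements
    have hfinE : {a : ℕ | a ∈ E F c d ∧ A ≤ (a : ℝ)}.Finite := by
      have : {a : ℕ | a ∈ E F c d ∧ A ≤ (a : ℝ)} ⊆ (fun a : ℕ => (a : ℝ)) ⁻¹' {x : ℝ | G.IsRoot x} :=
        fun a ha => hroot a ha.1 ha.2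
      exact (hfin.preimage (Nat.cast_injective.injOn)).subset this
    obtain ⟨B, hB⟩ := hfinE.bddAbove
    refine ⟨max ⌈A⌉₊ (B + 1), fun a ha a' _ hAa _ => ?_⟩
    exfalso
    have h1 : A ≤ (a : ℝ) := le_trans (Nat.le_ceil A) (by exact_mod_cast le_trans (le_max_left _ _) hAa)
    have h2 := hB (show a ∈ {a : ℕ | a ∈ E F c d ∧ A ≤ (a : ℝ)} from ⟨ha, h1⟩)
    have h3 := le_trans (le_max_right _ _) hAa
    omega
  · -- irrational `α`
    have hpos : ∀ m : ℕ, 1 ≤ m → 0 < |α * m - round (α * m)| := by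
      intro m hm
      rw [abs_pos]
      intro h
      apply hrat
      refine ⟨(round (α * m) : ℚ) / m, ?_⟩
      have hm' : (m : ℝ) ≠ 0 := by positivity
      push_cast
      rw [div_eq_iff hm']
      linarith
    obtain ⟨δ, hδ, hδm⟩ : ∃ δ : ℝ, 0 < δ ∧ ∀ m : ℕ, 1 ≤ m → m ≤ M →
        2 * δ ≤ |α * m - round (α * m)| := by
      clear_value α
      induction M with
      | zero => exact ⟨1, one_pos, fun m h1 h2 => by omega⟩
      | succ M ih =>
        obtain ⟨δ, hδ, h⟩ := ih
        refine ⟨min δ (|α * (M + 1 : ℕ) - round (α * (M + 1 : ℕ))| / 2),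
          lt_min hδ (half_pos (hpos _ (by omega))), fun m h1 h2 => ?_⟩
        rcases Nat.lt_or_ge M m with hm | hm
        · have : m = M + 1 := by omega
          subst this
          have := min_le_right δ (|α * (M + 1 : ℕ) - round (α * (M + 1 : ℕ))| / 2)
          linarith
        · have := min_le_left δ (|α * (M + 1 : ℕ) - round (α * (M + 1 : ℕ))| / 2)
          have := h m h1 hm
          linarith
    obtain ⟨A, hA⟩ := hloc δ hδ
    refine ⟨⌈A⌉₊, ?_⟩
    rintro a ⟨u, hua, hu⟩ a' ⟨u', hua', hu'⟩ hAa haa'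
    by_contra hcon
    push Not at hcon
    have h1 : A ≤ (a : ℝ) := le_trans (Nat.le_ceil A) (by exact_mod_cast hAa)
    have h2 : A ≤ (a' : ℝ) := le_trans h1 (by exact_mod_cast haa'.le)
    have e1 := hA a h1 u (Nat.cast_nonneg u) (hEeq a u hu)
    have e2 := hA a' h2 u' (Nat.cast_nonneg u') (hEeq a' u' hu')
    have e3 := hδm (a' - a) (by omega) (by omega)
    have e4 := round_le (α * ((a' - a : ℕ) : ℝ)) ((u' : ℤ) - (u : ℤ))
    rw [Nat.cast_sub haa'.le] at e3 e4
    push_cast at e4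
    rw [abs_lt] at e1 e2
    have e5 : |α * ((a' : ℝ) - a) - ((u' : ℝ) - u)| < 2 * δ := by
      rw [abs_lt]; constructor <;> linarith
    linarith


open Classical in
/-- `E F c d` has density zero. -/
lemma density_E (F : ℤ[X]) (hdeg : 2 ≤ F.natDegree) (hlead : 0 < F.leadingCoeff)
    (hroots : ∃ x y : ℂ, x ≠ y ∧ aeval x F = 0 ∧ aeval y F = 0) (c d : ℕ) (hc : 0 < c)
    (hcd : c < d) (ε : ℝ) (hε : 0 < ε) :
    ∀ᶠ N : ℕ in atTop, (((Icc 1 N).filter (fun a => a ∈ E F c d)).card : ℝ) ≤ ε * N := by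
  obtain ⟨M, hM⟩ := exists_nat_gt (2 / ε)
  have hM0 : 0 < (M : ℝ) := lt_trans (by positivity) hM
  have hM1 : 0 < M := by exact_mod_cast hM0
  obtain ⟨A, hA⟩ := gaps F hdeg hlead hroots c d hc hcd M
  obtain ⟨N0, hN0⟩ := exists_nat_gt ((A + 1) * (2 / ε))
  filter_upwards [eventually_ge_atTop N0] with N hN
  have hsub : (Icc 1 N).filter (fun a => a ∈ E F c d) ⊆
      range A ∪ (Icc 1 N).filter (fun a => A ≤ a ∧ a ∈ E F c d) := by
    intro a ha
    rw [mem_filter] at ha
    rw [mem_union, mem_range, mem_filter]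
    rcases Nat.lt_or_ge a A with h | h
    · exact Or.inl h
    · exact Or.inr ⟨ha.1, h, ha.2⟩
  have h2 : ((Icc 1 N).filter (fun a => A ≤ a ∧ a ∈ E F c d)).card ≤ N / M + 1 := by
    have : ((Icc 1 N).filter (fun a => A ≤ a ∧ a ∈ E F c d)).card ≤ (range (N / M + 1)).card := by
      apply Finset.card_le_card_of_injOn (fun a => a / M)
      · intro a ha
        simp only [coe_filter, Set.mem_ofPred_eq, mem_Icc] at ha
        simp only [coe_range, Set.mem_Iio]
        have := Nat.div_le_div_right (c := M) ha.1.2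
        omega
      · intro a ha b hb hab
        simp only [coe_filter, Set.mem_ofPred_eq, mem_Icc] at ha hb
        simp only at hab
        by_contra hne
        have key : ∀ x y : ℕ, x ∈ E F c d → y ∈ E F c d → A ≤ x → x / M = y / M → x < y → False := by
          intro x y hx hy hAx hxy hlt
          have h1 := hA x hx y hy hAx hlt
          have h3 := Nat.div_add_mod x M
          have h4 := Nat.div_add_mod y M
          have h5 := Nat.mod_lt x hM1
          have h6 := Nat.mod_lt y hM1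
          rw [hxy] at h3
          omega
        rcases Nat.lt_or_ge a b with h | h
        · exact key a b ha.2.2 hb.2.2 ha.2.1 hab h
        · exact key b a hb.2.2 ha.2.2 hb.2.1 hab.symm (by omega)
    rwa [card_range] at this
  have h3 : ((Icc 1 N).filter (fun a => a ∈ E F c d)).card ≤ A + (N / M + 1) :=
    le_trans (card_le_card hsub) (le_trans (card_union_le _ _) (by rw [card_range]; omega))
  have h4 : ((N / M : ℕ) : ℝ) ≤ N / M := Nat.cast_div_le
  have h5 : (N : ℝ) / M ≤ ε / 2 * N := by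
    rw [div_le_iff₀ hM0]
    have : 1 ≤ ε / 2 * M := by
      rw [div_lt_iff₀ hε] at hM
      linarith
    have hN' : (0 : ℝ) ≤ N := Nat.cast_nonneg N
    nlinarith
  have h6 : (A : ℝ) + 1 ≤ ε / 2 * N := by
    have : ((A : ℝ) + 1) * (2 / ε) < N := lt_of_lt_of_le hN0 (by exact_mod_cast hN)
    have h7 : ((A : ℝ) + 1) * (2 / ε) * (ε / 2) = A + 1 := by field_simp
    nlinarith
  have h8 : (((Icc 1 N).filter (fun a => a ∈ E F c d)).card : ℝ) ≤ A + ((N / M : ℕ) + 1) := by
    exact_mod_cast h3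
  linarith

/-! ### Common divisors -/

lemma count_residue (p N : ℕ) (hp : 0 < p) (r : ZMod p) :
    ((Icc 1 N).filter (fun a : ℕ => (a : ZMod p) = r)).card ≤ N / p + 1 := by
  have : ((Icc 1 N).filter (fun a : ℕ => (a : ZMod p) = r)).card ≤ (range (N / p + 1)).card := by
    apply Finset.card_le_card_of_injOn (fun a => a / p)
    · intro a ha
      simp only [coe_filter, Set.mem_ofPred_eq, mem_Icc] at ha
      simp only [coe_range, Set.mem_Iio]
      have := Nat.div_le_div_right (c := p) ha.1.2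
      omega
    · intro a ha b hb hab
      simp only [coe_filter, Set.mem_ofPred_eq, mem_Icc] at ha hb
      simp only at hab
      have h1 : (a : ZMod p) = (b : ZMod p) := by rw [ha.2, hb.2]
      rw [ZMod.natCast_eq_natCast_iff'] at h1
      have h3 := Nat.div_add_mod a p
      have h4 := Nat.div_add_mod b p
      rw [hab, h1] at h3
      omega
  rwa [card_range] at this

lemma count_root (F : ℤ[X]) (p N : ℕ) (hp : p.Prime) (hpl : ¬ (p : ℤ) ∣ F.leadingCoeff) :
    ((Icc 1 N).filter (fun a : ℕ => (p : ℤ) ∣ F.eval (a : ℤ))).card ≤ (N / p + 1) * F.natDegree := by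
  have : Fact p.Prime := ⟨hp⟩
  classical
  set Fp := F.map (Int.castRingHom (ZMod p)) with hFp
  have hne : Fp ≠ 0 := by
    intro h
    have h1 : Fp.coeff F.natDegree = 0 := by rw [h]; simp
    rw [hFp, coeff_map] at h1
    apply hpl
    rw [leadingCoeff]
    exact (ZMod.intCast_zmod_eq_zero_iff_dvd _ p).1 h1
  have hsub : (Icc 1 N).filter (fun a : ℕ => (p : ℤ) ∣ F.eval (a : ℤ)) ⊆
      Fp.roots.toFinset.biUnion (fun r => (Icc 1 N).filter (fun a : ℕ => (a : ZMod p) = r)) := by
    intro a ha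
    rw [mem_filter] at ha
    rw [mem_biUnion]
    refine ⟨(a : ZMod p), ?_, ?_⟩
    · rw [Multiset.mem_toFinset, mem_roots hne]
      change eval _ _ = 0
      have h := Polynomial.eval_intCast_map (Int.castRingHom (ZMod p)) F (a : ℤ)
      simp only [Int.cast_natCast] at h
      rw [hFp, h]
      exact (ZMod.intCast_zmod_eq_zero_iff_dvd _ p).2 ha.2
    · rw [mem_filter]; exact ⟨ha.1, rfl⟩
  calc _ ≤ _ := card_le_card hsub
    _ ≤ Fp.roots.toFinset.card * (N / p + 1) :=
        card_biUnion_le_card_mul _ _ _ (fun r _ => count_residue p N hp.pos r)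
    _ ≤ F.natDegree * (N / p + 1) := by
        apply Nat.mul_le_mul_right
        calc _ ≤ Multiset.card Fp.roots := Multiset.toFinset_card_le _
          _ ≤ Fp.natDegree := card_roots' _
          _ ≤ F.natDegree := natDegree_map_le
    _ = _ := Nat.mul_comm _ _

lemma count_dvd (p N : ℕ) : ((Icc 1 N).filter (fun h : ℕ => p ∣ h)).card = N / p := by
  have := Nat.Ioc_filter_dvd_card_eq_div N p
  rw [← this]
  congr 1

open Classical in
/-- Few points have a large common divisor of `F(a)` and `h`. -/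
lemma gcd_rare (F : ℤ[X]) (hlead : 0 < F.leadingCoeff) (ε : ℝ) (hε : 0 < ε) :
    ∃ K : ℕ, ∀ N : ℕ, (((Icc 1 N ×ˢ Icc 1 N).filter (fun p : ℕ × ℕ =>
      ∃ d : ℕ, K < d ∧ (d : ℤ) ∣ F.eval (p.1 : ℤ) ∧ d ∣ p.2)).card : ℝ) ≤ ε * (N : ℝ) ^ 2 := by
  set k := F.natDegree with hk
  obtain ⟨P0, hP0⟩ := exists_nat_gt (4 * k / ε)
  set P := P0 + F.leadingCoeff.natAbs + 1 with hP
  have hP0' : (0 : ℝ) < P := by rw [hP]; positivity
  have hPbig : 4 * (k : ℝ) / ε < P := by
    refine lt_of_lt_of_le hP0 ?_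
    rw [hP]; push_cast
    have : (0 : ℝ) ≤ (F.leadingCoeff.natAbs : ℝ) := Nat.cast_nonneg _
    linarith
  obtain ⟨Y0, hY0⟩ := exists_nat_gt (2 * P / ε)
  set Y := Y0 + 1 with hY
  have hYpos : (0 : ℝ) < Y := by rw [hY]; positivity
  have hYbig : 2 * (P : ℝ) / ε < Y := by
    refine lt_trans hY0 ?_
    rw [hY]; push_cast; linarith
  refine ⟨Y ^ P, fun N => ?_⟩
  rcases Nat.eq_zero_or_pos N with hN0 | hNpos
  · subst hN0; simp
  have hNR : (0 : ℝ) < N := by exact_mod_cast hNpos
  -- the two covering families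
  set S1 := ((Ioc P N).filter Nat.Prime).biUnion (fun q =>
    ((Icc 1 N).filter (fun a : ℕ => (q : ℤ) ∣ F.eval (a : ℤ))) ×ˢ
      ((Icc 1 N).filter (fun h : ℕ => q ∣ h))) with hS1
  set S2 := (Icc 2 P).biUnion (fun q =>
    (Icc 1 N) ×ˢ ((Icc 1 N).filter (fun h : ℕ => q ^ (Nat.log q Y + 1) ∣ h))) with hS2
  have hcover : (Icc 1 N ×ˢ Icc 1 N).filter (fun p : ℕ × ℕ =>
      ∃ d : ℕ, Y ^ P < d ∧ (d : ℤ) ∣ F.eval (p.1 : ℤ) ∧ d ∣ p.2) ⊆ S1 ∪ S2 := by
    rintro ⟨a, h⟩ hah
    rw [mem_filter, mem_product] at hah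
    obtain ⟨⟨ha, hh⟩, d, hd, hda, hdh⟩ := hah
    simp only at ha hh hda hdh
    have ha' := mem_Icc.1 ha
    have hh' := mem_Icc.1 hh
    have hd0 : d ≠ 0 := by
      rintro rfl; simp at hd
    rw [mem_union]
    by_cases hbig : ∃ q, q.Prime ∧ P < q ∧ q ∣ d
    · obtain ⟨q, hq, hPq, hqd⟩ := hbig
      left
      rw [hS1, mem_biUnion]
      refine ⟨q, ?_, ?_⟩
      · rw [mem_filter, mem_Ioc]
        exact ⟨⟨hPq, le_trans (Nat.le_of_dvd (by omega) (hqd.trans hdh)) hh'.2⟩, hq⟩
      · rw [mem_product, mem_filter, mem_filter]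
        exact ⟨⟨ha, (Int.natCast_dvd_natCast.2 hqd).trans hda⟩, hh, hqd.trans hdh⟩
    · right
      push Not at hbig
      have hex : ∃ q ∈ d.primeFactors, Y < q ^ d.factorization q := by
        by_contra hcon
        push Not at hcon
        have h1 : d ≤ Y ^ d.primeFactors.card := by
          conv_lhs => rw [← Nat.prod_factorization_pow_eq_self hd0]
          rw [Finsupp.prod, Nat.support_factorization]
          exact Finset.prod_le_pow_card _ _ _ hcon
        have h2 : d.primeFactors.card ≤ P := by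
          have : d.primeFactors ⊆ Icc 1 P := by
            intro q hq
            have hqp := Nat.prime_of_mem_primeFactors hq
            rw [mem_Icc]
            refine ⟨hqp.pos, ?_⟩
            by_contra hlt
            push Not at hlt
            exact hbig q hqp hlt (Nat.dvd_of_mem_primeFactors hq)
          have := card_le_card this
          simpa using this
        have h3 : Y ^ d.primeFactors.card ≤ Y ^ P := Nat.pow_le_pow_right (by omega) h2
        omega
      obtain ⟨q, hq, hYq⟩ := hex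
      have hqp := Nat.prime_of_mem_primeFactors hq
      have hqP : q ≤ P := by
        by_contra hlt
        push Not at hlt
        exact hbig q hqp hlt (Nat.dvd_of_mem_primeFactors hq)
      rw [hS2, mem_biUnion]
      refine ⟨q, mem_Icc.2 ⟨hqp.two_le, hqP⟩, ?_⟩
      rw [mem_product, mem_filter]
      refine ⟨ha, hh, ?_⟩
      have h1 : Nat.log q Y < d.factorization q := Nat.log_lt_of_lt_pow (by omega) hYq
      exact (pow_dvd_pow q h1).trans ((Nat.ordProj_dvd d q).trans hdh)
  -- first family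
  have hc1 : (S1.card : ℝ) ≤ ε / 2 * (N : ℝ) ^ 2 := by
    have h1 : S1.card ≤ ∑ q ∈ (Ioc P N).filter Nat.Prime, ((N / q + 1) * k) * (N / q) := by
      rw [hS1]
      refine le_trans card_biUnion_le (sum_le_sum fun q hq => ?_)
      rw [mem_filter, mem_Ioc] at hq
      rw [card_product, count_dvd]
      apply Nat.mul_le_mul_right
      apply count_root F q N hq.2
      intro hdvd
      have h1 : q ∣ F.leadingCoeff.natAbs := by
        rw [← Int.natCast_dvd]; exact hdvd
      have h2 : 0 < F.leadingCoeff.natAbs := by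
        rw [Int.natAbs_pos]; exact hlead.ne'
      have h3 := Nat.le_of_dvd h2 h1
      omega
    have h2 : ((∑ q ∈ (Ioc P N).filter Nat.Prime, ((N / q + 1) * k) * (N / q) : ℕ) : ℝ) ≤
        ∑ q ∈ Ioc P N, 2 * k * (N : ℝ) ^ 2 * (((q : ℝ) ^ 2)⁻¹) := by
      push_cast
      calc _ ≤ ∑ q ∈ (Ioc P N).filter Nat.Prime, 2 * k * (N : ℝ) ^ 2 * (((q : ℝ) ^ 2)⁻¹) := by
            apply sum_le_sum
            intro q hq
            rw [mem_filter, mem_Ioc] at hq
            have hq0 : (0 : ℝ) < q := by exact_mod_cast hq.2.pos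
            have hqN : (q : ℝ) ≤ N := by exact_mod_cast hq.1.2
            have e1 : ((N / q : ℕ) : ℝ) ≤ N / q := Nat.cast_div_le
            have e2 : (1 : ℝ) ≤ N / q := by rw [le_div_iff₀ hq0]; linarith
            have e3 : (0 : ℝ) ≤ ((N / q : ℕ) : ℝ) := Nat.cast_nonneg _
            have hk0 : (0 : ℝ) ≤ k := Nat.cast_nonneg _
            calc (((N / q : ℕ) : ℝ) + 1) * k * ((N / q : ℕ) : ℝ)
                ≤ ((N : ℝ) / q + N / q) * k * (N / q) := by
                  apply mul_le_mul _ e1 e3 (by positivity)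
                  apply mul_le_mul_of_nonneg_right _ hk0
                  linarith
              _ = 2 * k * (N : ℝ) ^ 2 * (((q : ℝ) ^ 2)⁻¹) := by
                  field_simp; ring
        _ ≤ _ := by
            apply sum_le_sum_of_subset_of_nonneg (filter_subset _ _)
            intro q _ _
            positivity
    have h3 : ∑ q ∈ Ioc P N, 2 * k * (N : ℝ) ^ 2 * (((q : ℝ) ^ 2)⁻¹) ≤
        2 * k * (N : ℝ) ^ 2 * (P : ℝ)⁻¹ := by
      rw [← mul_sum]
      apply mul_le_mul_of_nonneg_left _ (by positivity)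
      rcases Nat.lt_or_ge N P with h | h
      · rw [Ioc_eq_empty (by omega), sum_empty]; positivity
      · have := sum_Ioc_inv_sq_le_sub (α := ℝ) (k := P) (n := N) (by omega) h
        have h4 : (0 : ℝ) ≤ (N : ℝ)⁻¹ := by positivity
        linarith
    have h4 : 2 * (k : ℝ) * (P : ℝ)⁻¹ ≤ ε / 2 := by
      rw [div_lt_iff₀ hε] at hPbig
      rw [mul_inv_le_iff₀ hP0']
      nlinarith
    calc (S1.card : ℝ) ≤ _ := by exact_mod_cast h1
      _ ≤ _ := h2
      _ ≤ _ := h3
      _ = (2 * (k : ℝ) * (P : ℝ)⁻¹) * (N : ℝ) ^ 2 := by ring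
      _ ≤ _ := mul_le_mul_of_nonneg_right h4 (by positivity)
  -- second family
  have hc2 : (S2.card : ℝ) ≤ ε / 2 * (N : ℝ) ^ 2 := by
    have h1 : S2.card ≤ ∑ q ∈ Icc 2 P, N * (N / (q ^ (Nat.log q Y + 1))) := by
      rw [hS2]
      refine le_trans card_biUnion_le (sum_le_sum fun q hq => ?_)
      rw [card_product, count_dvd]
      simp
    have h2 : ((∑ q ∈ Icc 2 P, N * (N / (q ^ (Nat.log q Y + 1))) : ℕ) : ℝ) ≤
        ∑ q ∈ Icc 2 P, (N : ℝ) * (N / Y) := by
      push_cast
      apply sum_le_sum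
      intro q hq
      rw [mem_Icc] at hq
      apply mul_le_mul_of_nonneg_left _ hNR.le
      have hlt : Y < q ^ (Nat.log q Y + 1) := Nat.lt_pow_succ_log_self (by omega) Y
      have hlt' : (Y : ℝ) ≤ ((q ^ (Nat.log q Y + 1) : ℕ) : ℝ) := by exact_mod_cast hlt.le
      calc ((N / (q ^ (Nat.log q Y + 1)) : ℕ) : ℝ) ≤ N / ((q ^ (Nat.log q Y + 1) : ℕ) : ℝ) :=
            Nat.cast_div_le
        _ ≤ N / Y := div_le_div_of_nonneg_left hNR.le hYpos hlt'
    have h3 : ∑ q ∈ Icc 2 P, (N : ℝ) * (N / Y) ≤ P * ((N : ℝ) * (N / Y)) := by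
      rw [sum_const, nsmul_eq_mul]
      apply mul_le_mul_of_nonneg_right _ (by positivity)
      have : (Icc 2 P).card ≤ P := by rw [Nat.card_Icc]; omega
      exact_mod_cast this
    have h4 : (P : ℝ) / Y ≤ ε / 2 := by
      rw [div_lt_iff₀ hε] at hYbig
      rw [div_le_iff₀ hYpos]
      nlinarith
    calc (S2.card : ℝ) ≤ _ := by exact_mod_cast h1
      _ ≤ _ := h2
      _ ≤ _ := h3
      _ = ((P : ℝ) / Y) * (N : ℝ) ^ 2 := by ring
      _ ≤ _ := mul_le_mul_of_nonneg_right h4 (by positivity)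
  calc _ ≤ ((S1 ∪ S2).card : ℝ) := by exact_mod_cast card_le_card hcover
    _ ≤ (S1.card : ℝ) + S2.card := by exact_mod_cast card_union_le _ _
    _ ≤ ε * (N : ℝ) ^ 2 := by linarith

/-! ### Invisible points -/

/-- The structure of invisible points. -/
lemma invisible_structure (F : ℤ[X]) (hdeg : 2 ≤ F.natDegree) (hlead : 0 < F.leadingCoeff) :
    ∃ A : ℕ, ∀ a, A ≤ a → ∀ h, 1 ≤ h → ¬ Visible F a h →
      ∃ c d : ℕ, 0 < c ∧ c < d ∧ d ∣ h ∧ (d : ℤ) ∣ F.eval (a : ℤ) ∧ a ∈ E F c d := by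
  set P : ℝ[X] := F.map (Int.castRingHom ℝ) with hP
  have hinjR : Function.Injective (Int.castRingHom ℝ) := RingHom.injective_int _
  have hPdeg : 2 ≤ P.natDegree := by rw [hP, natDegree_map_eq_of_injective hinjR]; exact hdeg
  have hPlead : 0 < P.leadingCoeff := by
    rw [hP, leadingCoeff_map_of_injective hinjR]
    simpa using hlead
  have hev : ∀ a : ℕ, P.eval (a : ℝ) = ((F.eval (a : ℤ) : ℤ) : ℝ) := by
    intro a
    have h := Polynomial.eval_intCast_map (Int.castRingHom ℝ) F (a : ℤ)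
    simp only [Int.cast_natCast] at h
    exact h
  obtain ⟨B, hB0, hB⟩ := exceeds P hPdeg hPlead
  have hF : Tendsto (fun x => P.eval x) atTop atTop := by
    apply Polynomial.tendsto_atTop_of_leadingCoeff_nonneg P _ hPlead.le
    rw [← natDegree_pos_iff_degree_pos]; omega
  obtain ⟨B2, hB2⟩ := eventually_atTop.1 (hF.eventually_gt_atTop 0)
  refine ⟨max ⌈B⌉₊ ⌈B2⌉₊ + 1, fun a ha h hh hvis => ?_⟩
  have ha1 : B ≤ (a : ℝ) := by
    refine le_trans (Nat.le_ceil B) ?_
    have : ⌈B⌉₊ ≤ a := le_trans (le_trans (le_max_left _ _) (Nat.le_succ _)) ha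
    exact_mod_cast this
  have ha2 : B2 ≤ (a : ℝ) := by
    refine le_trans (Nat.le_ceil B2) ?_
    have : ⌈B2⌉₊ ≤ a := le_trans (le_trans (le_max_right _ _) (Nat.le_succ _)) ha
    exact_mod_cast this
  have ha0 : 0 < a := by omega
  have hFa : 0 < F.eval (a : ℤ) := by
    have := hB2 a ha2
    rw [hev] at this
    exact_mod_cast this
  have hmono : ∀ u : ℕ, u < a → F.eval (u : ℤ) < F.eval (a : ℤ) := by
    intro u hu
    have := hB a ha1 u (Nat.cast_nonneg u) (by exact_mod_cast hu)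
    rw [hev, hev] at this
    exact_mod_cast this
  have hFaQ : ((F.eval (a : ℤ) : ℤ) : ℚ) ≠ 0 := by exact_mod_cast hFa.ne'
  -- the witness `t = h / F(a)` is not good
  have hnot : ¬ IsLeast {u : ℕ | 0 < u ∧ ∃ m : ℕ, 0 < m ∧
      ((h : ℚ) / ((F.eval (a : ℤ) : ℤ) : ℚ)) * ((F.eval (u : ℤ) : ℤ) : ℚ) = (m : ℚ)} a := by
    intro hl
    exact hvis ⟨(h : ℚ) / ((F.eval (a : ℤ) : ℤ) : ℚ), by field_simp, hl⟩
  have hmem : a ∈ {u : ℕ | 0 < u ∧ ∃ m : ℕ, 0 < m ∧
      ((h : ℚ) / ((F.eval (a : ℤ) : ℤ) : ℚ)) * ((F.eval (u : ℤ) : ℤ) : ℚ) = (m : ℚ)} :=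
    ⟨ha0, h, hh, by field_simp⟩
  obtain ⟨u, hu0, hua, m, hm, hum⟩ : ∃ u : ℕ, 0 < u ∧ u < a ∧ ∃ m : ℕ, 0 < m ∧
      ((h : ℚ) / ((F.eval (a : ℤ) : ℤ) : ℚ)) * ((F.eval (u : ℤ) : ℤ) : ℚ) = (m : ℚ) := by
    by_contra hcon
    push Not at hcon
    apply hnot
    refine ⟨hmem, ?_⟩
    rintro u ⟨hu0, m, hm, hum⟩
    by_contra hlt
    push Not at hlt
    exact hcon u hu0 hlt m hm hum
  have heq : (h : ℤ) * F.eval (u : ℤ) = (m : ℤ) * F.eval (a : ℤ) := by
    have : (h : ℚ) * ((F.eval (u : ℤ) : ℤ) : ℚ) = (m : ℚ) * ((F.eval (a : ℤ) : ℤ) : ℚ) := by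
      rw [← hum]; field_simp
    exact_mod_cast this
  -- reduce the fraction
  set g := Nat.gcd h m with hg
  have hgpos : 0 < g := Nat.gcd_pos_of_pos_left _ hh
  obtain ⟨d, hd⟩ : g ∣ h := Nat.gcd_dvd_left h m
  obtain ⟨c, hc⟩ : g ∣ m := Nat.gcd_dvd_right h m
  have hcop : Nat.Coprime d c := by
    have := Nat.coprime_div_gcd_div_gcd (m := h) (n := m) hgpos
    rw [← hg] at this
    rwa [show h / g = d by rw [hd]; exact Nat.mul_div_cancel_left d hgpos,
      show m / g = c by rw [hc]; exact Nat.mul_div_cancel_left c hgpos] at this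
  have hc0 : 0 < c := by
    rcases Nat.eq_zero_or_pos c with h0 | h0
    · subst h0; omega
    · exact h0
  have heq2 : (d : ℤ) * F.eval (u : ℤ) = (c : ℤ) * F.eval (a : ℤ) := by
    have hgZ : (g : ℤ) ≠ 0 := by exact_mod_cast hgpos.ne'
    apply mul_left_cancel₀ hgZ
    rw [hd, hc] at heq
    push_cast at heq
    linear_combination heq
  refine ⟨c, d, hc0, ?_, ⟨g, by rw [hd]; ring⟩, ?_, u, hua, heq2⟩
  · have h1 := hmono u hua
    have h2 : (0 : ℤ) < c := by exact_mod_cast hc0
    by_contra hcon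
    push Not at hcon
    have h3 : (d : ℤ) ≤ c := by exact_mod_cast hcon
    have h4 : 0 < F.eval (u : ℤ) := by
      have h5 : 0 < (d : ℤ) * F.eval (u : ℤ) := by rw [heq2]; positivity
      have h6 : (0 : ℤ) ≤ d := Int.natCast_nonneg d
      by_contra hneg
      push Not at hneg
      nlinarith
    nlinarith
  · have h1 : (d : ℤ) ∣ (c : ℤ) * F.eval (a : ℤ) := ⟨_, heq2.symm⟩
    exact (Int.isCoprime_iff_gcd_eq_one.2 (by simpa using hcop)).dvd_of_dvd_mul_left h1

open Classical in
lemma invisible_rare (F : ℤ[X]) (hdeg : 2 ≤ F.natDegree) (hlead : 0 < F.leadingCoeff)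
    (hroots : ∃ x y : ℂ, x ≠ y ∧ aeval x F = 0 ∧ aeval y F = 0) (ε : ℝ) (hε : 0 < ε) :
    ∀ᶠ N : ℕ in atTop, (((Icc 1 N ×ˢ Icc 1 N).filter (fun p : ℕ × ℕ =>
      ¬ Visible F p.1 p.2)).card : ℝ) ≤ ε * (N : ℝ) ^ 2 := by
  obtain ⟨A, hA⟩ := invisible_structure F hdeg hlead
  obtain ⟨K, hK⟩ := gcd_rare F hlead (ε / 3) (by positivity)
  set ε' : ℝ := ε / (3 * ((K : ℝ) + 1) ^ 2) with hε'
  have hε'pos : 0 < ε' := by positivity
  have hE : ∀ᶠ N : ℕ in atTop, ∀ q ∈ (range (K + 1) ×ˢ range (K + 1)).filter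
      (fun q : ℕ × ℕ => 0 < q.1 ∧ q.1 < q.2),
      (((Icc 1 N).filter (fun a => a ∈ E F q.1 q.2)).card : ℝ) ≤ ε' * N := by
    rw [Filter.eventually_all_finset]
    intro q hq
    rw [mem_filter] at hq
    exact density_E F hdeg hlead hroots q.1 q.2 hq.2.1 hq.2.2 ε' hε'pos
  obtain ⟨N1, hN1⟩ := exists_nat_gt (3 * A / ε)
  filter_upwards [hE, eventually_ge_atTop N1] with N hEN hN
  set T := (range (K + 1) ×ˢ range (K + 1)).filter (fun q : ℕ × ℕ => 0 < q.1 ∧ q.1 < q.2) with hT
  have hcover : (Icc 1 N ×ˢ Icc 1 N).filter (fun p : ℕ × ℕ => ¬ Visible F p.1 p.2) ⊆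
      (range A ×ˢ Icc 1 N) ∪
      ((Icc 1 N ×ˢ Icc 1 N).filter (fun p : ℕ × ℕ =>
        ∃ d : ℕ, K < d ∧ (d : ℤ) ∣ F.eval (p.1 : ℤ) ∧ d ∣ p.2)) ∪
      T.biUnion (fun q => ((Icc 1 N).filter (fun a => a ∈ E F q.1 q.2)) ×ˢ Icc 1 N) := by
    rintro ⟨a, h⟩ hah
    rw [mem_filter, mem_product] at hah
    obtain ⟨⟨ha, hh⟩, hvis⟩ := hah
    simp only at ha hh hvis
    rw [mem_union, mem_union]
    rcases Nat.lt_or_ge a A with haA | haA
    · left; left
      rw [mem_product, mem_range]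
      exact ⟨haA, hh⟩
    · obtain ⟨c, d, hc, hcd, hdh, hda, haE⟩ := hA a haA h (mem_Icc.1 hh).1 hvis
      rcases Nat.lt_or_ge K d with hKd | hKd
      · left; right
        rw [mem_filter, mem_product]
        exact ⟨⟨ha, hh⟩, d, hKd, hda, hdh⟩
      · right
        rw [mem_biUnion]
        refine ⟨(c, d), ?_, ?_⟩
        · rw [hT, mem_filter, mem_product, mem_range, mem_range]
          exact ⟨⟨by simp only; omega, by simp only; omega⟩, hc, hcd⟩
        · rw [mem_product, mem_filter]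
          exact ⟨⟨ha, haE⟩, hh⟩
  have h1 : ((range A ×ˢ Icc 1 N).card : ℝ) ≤ ε / 3 * (N : ℝ) ^ 2 := by
    rw [card_product, card_range, show (Icc 1 N).card = N by simp]
    push_cast
    have : 3 * (A : ℝ) / ε < N := lt_of_lt_of_le hN1 (by exact_mod_cast hN)
    rw [div_lt_iff₀ hε] at this
    have hN' : (0 : ℝ) ≤ N := Nat.cast_nonneg N
    nlinarith
  have h2 := hK N
  have h3 : ((T.biUnion (fun q => ((Icc 1 N).filter (fun a => a ∈ E F q.1 q.2)) ×ˢ
      Icc 1 N)).card : ℝ) ≤ ε / 3 * (N : ℝ) ^ 2 := by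
    have e1 : ((T.biUnion (fun q => ((Icc 1 N).filter (fun a => a ∈ E F q.1 q.2)) ×ˢ
        Icc 1 N)).card : ℝ) ≤ ∑ q ∈ T, (((Icc 1 N).filter (fun a => a ∈ E F q.1 q.2)).card : ℝ)
          * N := by
      have := card_biUnion_le (s := T) (t := fun q => ((Icc 1 N).filter
        (fun a => a ∈ E F q.1 q.2)) ×ˢ Icc 1 N)
      have h' : ((T.biUnion (fun q => ((Icc 1 N).filter (fun a => a ∈ E F q.1 q.2)) ×ˢ
        Icc 1 N)).card : ℝ) ≤ ((∑ q ∈ T, (((Icc 1 N).filter (fun a => a ∈ E F q.1 q.2)) ×ˢ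
          Icc 1 N).card : ℕ) : ℝ) := by exact_mod_cast this
      refine le_trans h' (le_of_eq ?_)
      push_cast
      apply sum_congr rfl
      intro q _
      rw [card_product, Nat.card_Icc]
      push_cast
      simp
    have e2 : ∑ q ∈ T, (((Icc 1 N).filter (fun a => a ∈ E F q.1 q.2)).card : ℝ) * N ≤
        ∑ _q ∈ T, ε' * N * N := by
      apply sum_le_sum
      intro q hq
      exact mul_le_mul_of_nonneg_right (hEN q hq) (Nat.cast_nonneg N)
    have e3 : (T.card : ℝ) ≤ ((K : ℝ) + 1) ^ 2 := by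
      have : T.card ≤ (K + 1) * (K + 1) := by
        refine le_trans (card_filter_le _ _) ?_
        rw [card_product, card_range]
      have h' : (T.card : ℝ) ≤ (((K + 1) * (K + 1) : ℕ) : ℝ) := by exact_mod_cast this
      push_cast at h'
      nlinarith
    rw [sum_const, nsmul_eq_mul] at e2
    have e4 : (T.card : ℝ) * (ε' * N * N) ≤ ((K : ℝ) + 1) ^ 2 * (ε' * N * N) :=
      mul_le_mul_of_nonneg_right e3 (by positivity)
    have e5 : ((K : ℝ) + 1) ^ 2 * (ε' * N * N) = ε / 3 * (N : ℝ) ^ 2 := by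
      rw [hε']; field_simp
    linarith
  have h4 := card_le_card hcover
  have h5 := card_union_le ((range A ×ˢ Icc 1 N) ∪
      ((Icc 1 N ×ˢ Icc 1 N).filter (fun p : ℕ × ℕ =>
        ∃ d : ℕ, K < d ∧ (d : ℤ) ∣ F.eval (p.1 : ℤ) ∧ d ∣ p.2)))
      (T.biUnion (fun q => ((Icc 1 N).filter (fun a => a ∈ E F q.1 q.2)) ×ˢ Icc 1 N))
  have h6 := card_union_le (range A ×ˢ Icc 1 N)
      ((Icc 1 N ×ˢ Icc 1 N).filter (fun p : ℕ × ℕ =>
        ∃ d : ℕ, K < d ∧ (d : ℤ) ∣ F.eval (p.1 : ℤ) ∧ d ∣ p.2))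
  have h7 : (((Icc 1 N ×ˢ Icc 1 N).filter (fun p : ℕ × ℕ => ¬ Visible F p.1 p.2)).card : ℝ) ≤
      ((range A ×ˢ Icc 1 N).card : ℝ) + (((Icc 1 N ×ˢ Icc 1 N).filter (fun p : ℕ × ℕ =>
        ∃ d : ℕ, K < d ∧ (d : ℤ) ∣ F.eval (p.1 : ℤ) ∧ d ∣ p.2)).card : ℝ)
        + ((T.biUnion (fun q => ((Icc 1 N).filter (fun a => a ∈ E F q.1 q.2)) ×ˢ
          Icc 1 N)).card : ℝ) := by
    have := le_trans h4 (le_trans h5 (Nat.add_le_add_right h6 _))
    exact_mod_cast this
  linarith

/-- A polynomial with two distinct complex roots has degree at least two. -/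
lemma two_le_natDegree (F : ℤ[X]) (hlead : 0 < F.leadingCoeff)
    (hroots : ∃ x y : ℂ, x ≠ y ∧ aeval x F = 0 ∧ aeval y F = 0) : 2 ≤ F.natDegree := by
  obtain ⟨x, y, hxy, hx, hy⟩ := hroots
  have hF : F ≠ 0 := by rintro rfl; simp at hlead
  have hinj : Function.Injective (Int.castRingHom ℂ) := RingHom.injective_int _
  have hFC : F.map (Int.castRingHom ℂ) ≠ 0 := by
    intro h
    exact hF ((Polynomial.map_eq_zero_iff hinj).1 h)
  have hroot : ∀ z : ℂ, aeval z F = 0 → z ∈ (F.map (Int.castRingHom ℂ)).roots.toFinset := by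
    intro z hz
    rw [Multiset.mem_toFinset, mem_roots hFC]
    change eval _ _ = 0
    rw [← eval₂_eq_eval_map]
    exact hz
  have h1 : ({x, y} : Finset ℂ) ⊆ (F.map (Int.castRingHom ℂ)).roots.toFinset := by
    intro z hz
    rw [mem_insert, mem_singleton] at hz
    rcases hz with rfl | rfl
    · exact hroot _ hx
    · exact hroot _ hy
  have h2 := card_le_card h1
  rw [card_pair hxy] at h2
  calc 2 ≤ _ := h2
    _ ≤ Multiset.card (F.map (Int.castRingHom ℂ)).roots := Multiset.toFinset_card_le _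
    _ ≤ (F.map (Int.castRingHom ℂ)).natDegree := card_roots' _
    _ ≤ F.natDegree := natDegree_map_le

/-- **Q1 is true.**  For every integer polynomial `F` with positive leading coefficient and at least
two distinct complex roots, the density of the points visible along `F` exists and equals `1`. -/
theorem result (F : ℤ[X]) (hlead : 0 < F.leadingCoeff)
    (hroots : ∃ x y : ℂ, x ≠ y ∧ aeval x F = 0 ∧ aeval y F = 0) :
    Tendsto (fun N : ℕ => (visibleCount F N : ℝ) / (N : ℝ) ^ 2) atTop (𝓝 1) := by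
  classical
  have hdeg := two_le_natDegree F hlead hroots
  rw [Metric.tendsto_atTop']
  intro ε hε
  have h := invisible_rare F hdeg hlead hroots (ε / 2) (by positivity)
  obtain ⟨N0, hN0⟩ := eventually_atTop.1 h
  refine ⟨N0, fun N hN => ?_⟩
  have hNpos : 0 < N := by omega
  have hNR : (0 : ℝ) < (N : ℝ) ^ 2 := by positivity
  have h1 := hN0 N (le_of_lt hN)
  have h2 : visibleCount F N + ((Icc 1 N ×ˢ Icc 1 N).filter (fun p : ℕ × ℕ =>
      ¬ Visible F p.1 p.2)).card = N * N := by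
    unfold visibleCount
    rw [Finset.card_filter_add_card_filter_not]
    simp
  have h3 : (visibleCount F N : ℝ) + (((Icc 1 N ×ˢ Icc 1 N).filter (fun p : ℕ × ℕ =>
      ¬ Visible F p.1 p.2)).card : ℝ) = (N : ℝ) ^ 2 := by
    have : ((visibleCount F N + ((Icc 1 N ×ˢ Icc 1 N).filter (fun p : ℕ × ℕ =>
      ¬ Visible F p.1 p.2)).card : ℕ) : ℝ) = ((N * N : ℕ) : ℝ) := by rw [h2]
    push_cast at this
    rw [this]; ring
  have h4 : (0 : ℝ) ≤ (((Icc 1 N ×ˢ Icc 1 N).filter (fun p : ℕ × ℕ =>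
      ¬ Visible F p.1 p.2)).card : ℝ) := Nat.cast_nonneg _
  rw [Real.dist_eq]
  have h5 : (visibleCount F N : ℝ) / (N : ℝ) ^ 2 - 1 = -((((Icc 1 N ×ˢ Icc 1 N).filter
      (fun p : ℕ × ℕ => ¬ Visible F p.1 p.2)).card : ℝ) / (N : ℝ) ^ 2) := by
    rw [← h3]
    have : (visibleCount F N : ℝ) + (((Icc 1 N ×ˢ Icc 1 N).filter (fun p : ℕ × ℕ =>
      ¬ Visible F p.1 p.2)).card : ℝ) ≠ 0 := by rw [h3]; exact hNR.ne'
    field_simp
    ring
  rw [h5, abs_neg, abs_of_nonneg (by positivity)]
  calc _ ≤ ε / 2 := by rw [div_le_iff₀ hNR]; exact h1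
    _ < ε := by linarith

end Pool.Agent.Results.MP_543a09_nt.VisibleDensityOne
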